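import Mathlib
import Pool.Agent.Helper22.ETModel
import Pool.Agent.Helper8.UV.Defs
import Pool.Agent.Helper21.UV3.Model
import Pool.Agent.Helper21.UV4.Model
import Pool.Agent.Helper21.UV4.Price4
import Pool.Agent.Helper21.UV4.UpperQ
import Pool.Agent.Helper5.UV.UpperJ

/-!
# Exact Triangle by threshold circuits with unbounded weights and unbounded fan-in

The circuit accepts if the sum of the votes of its voters is positive; the votes are arbitrary real
numbers, so the weights in the top gate are arbitrary. The circuit may be random and has to be
correct with probability at least `19/20` on every valid complete tripartite instance. It knows the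
flags; the difficulty is in the weights. Let `1 ≤ d` and `(s + 6) * d ^ 2 ≤ 270` (so `d ≤ 6`), and
`L = ⌊log n⌋ + 1`. Then `n ^ 3` is at most `2 ^ 32 * 100 ^ d` times the expected total price of the
voters, where the price of a voter is

* `0` if it ignores the weights;
* `(B + D) ^ (3/2)` for a decision tree with `B` adaptive probes of weights, `D` sign queries
  `0 ≤ p (w)` on every path, with arbitrary real polynomials `p` of degree at most `d` in all the
  weights, and arbitrary real outputs, if at most `2 ^ (s * L)` sign queries are left in the whole
  tree on fixing one result at each probe node (at each node separately, even if two nodes probe the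
  same cell); several sign queries may be asked at once. In particular
  `m ^ (3/2)` for an arbitrary real function of the signs of `m ≤ n ^ s` polynomials, and
  `(B + D) ^ (3/2)` for a decision tree with `B` probes and `D ≤ s * L` adaptive sign queries;
* `(B + (s + 3) * L * D) ^ (3/2)` for a decision tree with `B` adaptive probes and `D` adaptive
  sign queries, at most `2 ^ (s * L)` of them different;
* `√k * W` for an arbitrary real function of `k` additive threshold gates
  `θ ≤ ∑ e ∈ K, g e (w e)`, where the `g e` are arbitrary real functions of single weights (for
  example arbitrary real linear forms in the bits of the weights), with together `W` wires.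

So a weighted threshold of arbitrary functions of `m` polynomial threshold functions of degree
`d ≤ 6` of the weights, with unbounded weights and unbounded fan-in, needs
`n ^ 3 / (2 ^ 32 * 100 ^ d * m ^ (3/2))` functions in expectation, and a weighted threshold of
additive threshold gates needs `n ^ 3 / (2 ^ 32 * 100)` wires. The other three statements show that
this is sharp in many cases: `2 * n ^ 3` linear threshold gates with fan-in three,
`2 ^ 9 * n ^ 3 / B ^ (3/2)` trees with `B` probes (for every `B` from `3` to `n ^ 2`), or
`2 ^ 9 * n ^ 3 / r ^ (3/2)` functions of `k = O(r log n)` gates with together `k` wires are correct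
on all instances.

Idea of the proof: two triangles with one common edge are planted in a random instance; each of the
five weights has two possible values, so that there are sixteen instances; in eight of them exactly
one of the two triangles has the sum zero and in the other eight none. If all mixed third
differences of the sum of the votes along the two triangles vanish, then this sum satisfies a linear
relation between the sixteen instances which contradicts the signs. So some voter has a non-zero
mixed third difference. The expected number of places where a voter can have one is bounded by its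
price: for trees by the Loomis-Whitney inequality along the path, for functions of additive gates
by the inequality of Kolmogorov and Rogozin for each gate and a weighted Loomis-Whitney inequality.
For the sign queries every weight that does not belong to the planted triangles is big with
probability `1/10`, with a huge random value: the variables of the dominating monomial of the
polynomial are read, again and again, until all the variables of the dominating monomial are big;
then, by an inequality of Remez for polynomials of small degree, the answer does not depend on the
small parts of the weights that have not been read, except with a tiny probability. The events of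
small probability are added over all sign queries of the tree, or over all different polynomials; in
the second case the reading starts afresh at every query.
-/

set_option autoImplicit false

namespace Pool.Agent.Helper53.TC5.Old.ThresholdCircuits

open Pool.Agent.Helper22.ETModel Pool.Agent.Helper8.VT Pool.Agent.Helper8.UV
open Pool.Agent.Helper21.UV4

/-- Exact Triangle by threshold circuits with unbounded weights and unbounded fan-in: the lower
bound for random circuits, and three matching upper bounds. -/
theorem result :
    -- the lower bound
    (∀ n d s : ℕ, 3 ≤ n → 1 ≤ d → (s + 6) * d ^ 2 ≤ 270 →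
      ∀ (Ω ι : Type) [Fintype Ω] [Nonempty Ω] [Fintype ι]
      (H : Ω → ι → Inst n → ℝ) (κ : Ω → ι → ℝ), (∀ ω r, Price4 d s (H ω r) (κ ω r)) →
      (∀ I : Inst n, I.Valid → Tripartite I → Decides H I) →
      (n : ℝ) ^ 3 ≤ 2 ^ 32 * 100 ^ d * ((∑ ω, ∑ r, κ ω r) / Fintype.card Ω)) ∧
    -- linear threshold gates with fan-in three
    (∀ n : ℕ, ∃ H : Fin (2 * n ^ 3) → Inst n → ℝ,
      (∀ r, IsBatch 1 0 1 1 (H r) ∧ IsJunta 1 3 (H r)) ∧ ∀ I : Inst n, 0 < ∑ r, H r I ↔ I.Yes) ∧
    -- decision trees with `B` probes
    (∀ n B : ℕ, 3 ≤ B → B ≤ n ^ 2 → ∃ (N : ℕ) (H : Fin N → Inst n → ℝ),
      (N : ℝ) * (B : ℝ) ^ (3 / 2 : ℝ) ≤ 2 ^ 9 * (n : ℝ) ^ 3 ∧ (∀ r, IsBatch 1 B 0 0 (H r)) ∧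
      ∀ I : Inst n, 0 < ∑ r, H r I ↔ I.Yes) ∧
    -- functions of many gates with together as many wires
    (∀ n s : ℕ, 3 ≤ s → s ≤ n ^ 2 → ∃ (N : ℕ) (H : Fin N → Inst n → ℝ),
      (N : ℝ) * (s : ℝ) ^ (3 / 2 : ℝ) ≤ 2 ^ 9 * (n : ℝ) ^ 3 ∧
      (∀ r, IsJunta (s * (302 * (Nat.log 2 n + 1))) (s * (302 * (Nat.log 2 n + 1))) (H r)) ∧
      ∀ I : Inst n, 0 < ∑ r, H r I ↔ I.Yes) := by
  refine ⟨fun n d s hn hd hs Ω ι _ _ _ H κ hκ hdec => lower4 n d s hn hd hs Ω ι H κ hκ hdec,
    ?_, ?_, Helper5.UV.juntaStatement⟩
  · intro n
    obtain ⟨H, h1, h2⟩ := Pool.Agent.Helper21.UV3.upper_gates3 n
    exact ⟨H, fun r => ⟨isBatch_of_isReader (h1 r).1 (by norm_num), (h1 r).2⟩, h2⟩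
  · intro n B hB hBn
    obtain ⟨N, H, h1, h2, h3⟩ := Helper5.UV.readerStatement n B hB hBn
    exact ⟨N, H, h1, fun r => isBatch_of_isReader
      (Pool.Agent.Helper21.UV3.isReader_of_isProbe 1 (h2 r)) (by norm_num), h3⟩

end Pool.Agent.Helper53.TC5.Old.ThresholdCircuits
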